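import Pool.Agent.Q83.RI.Main

/-!
# Repunit primes: infinitude, number and limit laws for all random sets of exponents near the model

The model of the exponents of the repunit primes contains each prime `p` independently with probability
`rate p = min (1 / 2) (e ^ γ log p / (p log 10))`. For any random set `A` (no independence is assumed) `D μ A x` is the relative entropy (nats)
of the law of the set of the primes below `x` in `A` with respect to the model, and `M (A ω) x` is their number; `cR = e ^ γ / log 10`.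
-/

set_option autoImplicit false

namespace Pool.Agent.Results.MP_adea1b_nt.InfinitudeAtGivenInformation

open MeasureTheory Filter Pool.Agent.Q120.ET Pool.Agent.Q83.RI
open scoped Topology

/-- (1) For every `d : ℕ → ℝ` and `0 ≤ t < 1`: all random sets with `D(x) ≤ d x` for large `x` contain only finitely many primes with probability
at most `t` iff `liminf d x / log x ≤ cR * t`; so all these sets almost surely contain infinitely many primes iff `liminf d x / log x ≤ 0`.
(2) For nondecreasing `d ≥ 0` all these sets almost surely have `M(x) ~ cR log x` iff `∑_p d p / (p log p) < ∞`. (3) A probability measure `ν` is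
the law of `lim M(x) / log x` for some random set of class `δ` (`D(x) ≤ (δ + o(1)) log x`) iff it lives on `[0, ∞)` and
`∫ (u log (u / cR) - u + cR) dν ≤ δ`. -/
theorem result :
    (∀ d : ℕ → ℝ, ∀ t : ℝ, 0 ≤ t → t < 1 →
      ((∀ (Ω : Type) [MeasurableSpace Ω] (μ : Measure Ω) [IsProbabilityMeasure μ] (A : Ω → Set ℕ), IsRandomSet A →
        (∀ᶠ x : ℕ in atTop, D μ A x ≤ d x) → μ.real {ω | (A ω ∩ {n | n.Prime}).Finite} ≤ t) ↔
      ∀ ε : ℝ, 0 < ε → ∃ᶠ x : ℕ in atTop, d x ≤ (cR * t + ε) * Real.log x)) ∧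
    (∀ d : ℕ → ℝ, Monotone d → (∀ n, 0 ≤ d n) →
      ((∀ (Ω : Type) [MeasurableSpace Ω] (μ : Measure Ω) [IsProbabilityMeasure μ] (A : Ω → Set ℕ), IsRandomSet A →
        (∀ᶠ x : ℕ in atTop, D μ A x ≤ d x) → ∀ᵐ ω ∂μ, Tendsto (fun x : ℕ => (M (A ω) x : ℝ) / Real.log x) atTop (𝓝 cR)) ↔
      Summable (fun n : ℕ => if n.Prime then d n / (n * Real.log n) else 0))) ∧
    ∀ δ : ℝ, 0 ≤ δ → ∀ ν : Measure ℝ, IsProbabilityMeasure ν →
        ((∃ (Ω : Type) (_ : MeasurableSpace Ω) (μ : Measure Ω) (_ : IsProbabilityMeasure μ) (A : Ω → Set ℕ) (L : Ω → ℝ), Cls δ μ A ∧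
          Measurable L ∧ μ.map L = ν ∧ ∀ᵐ ω ∂μ, Tendsto (fun x : ℕ => (M (A ω) x : ℝ) / Real.log x) atTop (𝓝 (L ω))) ↔
        ν (Set.Iio 0) = 0 ∧ ∫⁻ u, ENNReal.ofReal (u * Real.log (u / cR) - u + cR) ∂ν ≤ ENNReal.ofReal δ) :=
  main

end Pool.Agent.Results.MP_adea1b_nt.InfinitudeAtGivenInformation
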