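import Mathlib
import Pool.Agent.Q160.TA3
import Pool.Agent.W66.LU

set_option autoImplicit false

/-!
# Decimal repunits and the last decimal digits: error term and sets of lengths

For a sequence `d` of decimal digits and a prime `p` let `W d p` be the `p`-rough part (the product,
with multiplicity, of the prime factors larger than `p`) of the integer
`∑ i < p, d i * 10 ^ i` formed by the last `p` decimal digits of the 10-adic integer `... d 2 d 1 d 0`.
For the constant sequence `1` this is the repunit `R_p` itself, for every prime `p ≠ 3`.  For a set `S`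
let `M S d n` be the number of primes `p ≤ n` in `S` with `W d p` prime, and let `V S n` be the sum of
`log p / p` over the primes `p ≤ n` in `S`.

Let the digits be independent and uniformly distributed (Haar measure on the 10-adic integers).  We
prove that for almost every `d` whose last digit `d 0` is `1`, `3`, `7` or `9` the number of primes
`p ≤ n` with `W d p` prime is `(e ^ γ / log 10) log n + O((log n) ^ (1/2) (log log n) ^ (5/2))`, that
for every set `S` and almost every such `d` there are infinitely many such primes `p` in `S` if and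
only if `V S n` is unbounded, and that in this case
`M S d n = (e ^ γ / log 10) V S n + O((V L) ^ (1/2) (log (V L)) ^ 2)` with `V = V S n` and
`L = log log n`.
-/

namespace Pool.Agent.Results.MP_adea1b_nt.LastDigits

open Filter Topology MeasureTheory Asymptotics

/-- The product, with multiplicity, of the prime factors of `m` that are larger than `p`. -/
def roughPart (p m : ℕ) : ℕ := (m.primeFactorsList.filter (fun r => p < r)).prod

/-- The `p`-rough part of the integer with the last `p` decimal digits `d (p - 1), ..., d 1, d 0`. -/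
def W (d : ℕ → Fin 10) (p : ℕ) : ℕ := roughPart p (∑ i ∈ Finset.range p, (d i : ℕ) * 10 ^ i)

open Classical in
/-- The number of primes `p ≤ n` in the set `S` for which `W d p` is prime. -/
noncomputable def M (S : Set ℕ) (d : ℕ → Fin 10) (n : ℕ) : ℕ :=
  ((Finset.range (n + 1)).filter (fun p => p.Prime ∧ p ∈ S ∧ (W d p).Prime)).card

open Classical in
/-- The sum of `log p / p` over the primes `p ≤ n` in the set `S`. -/
noncomputable def V (S : Set ℕ) (n : ℕ) : ℝ :=
  ∑ p ∈ (Finset.range (n + 1)).filter (fun p => p.Prime ∧ p ∈ S), Real.log p / p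

/-- Independent uniformly distributed decimal digits. -/
noncomputable def digits : Measure (ℕ → Fin 10) :=
  Measure.infinitePi (fun _ : ℕ => ProbabilityTheory.uniformOn (Set.univ : Set (Fin 10)))

lemma V_eq (S : Set ℕ) (n : ℕ) : V S n = Pool.Agent.TH888.R.VS S n := by
  classical
  unfold V Pool.Agent.TH888.R.VS
  rw [Finset.sum_filter]
  refine Finset.sum_congr rfl fun p _ => ?_
  by_cases h : p.Prime ∧ p ∈ S
  · rw [if_pos h, if_pos ⟨h.2, h.1⟩]
    rfl
  · rw [if_neg h, if_neg fun h1 => h ⟨h1.2, h1.1⟩]

lemma W_special {p : ℕ} (hp : p.Prime) (h3 : p ≠ 3) :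
    W (fun _ => 1) p = ∑ i ∈ Finset.range p, 10 ^ i := by
  have h := Pool.Agent.W66L.rough_repunit (b := 10) (by norm_num) hp (by
    intro h
    have h2 : p ∣ 3 := by
      have : p ∣ 3 ^ 2 := by simpa using h
      exact hp.dvd_of_dvd_pow this
    exact h3 ((Nat.prime_dvd_prime_iff_eq hp Nat.prime_three).1 h2))
  have e : W (fun _ => 1) p = Pool.Agent.H305R2.roughPart p (∑ i ∈ Finset.range p, 10 ^ i) := by
    unfold W
    have : ∑ i ∈ Finset.range p, ((1 : Fin 10) : ℕ) * 10 ^ i = ∑ i ∈ Finset.range p, 10 ^ i :=
      Finset.sum_congr rfl fun i _ => by simp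
    rw [this]
    rfl
  rw [e, h]

lemma M_eq (S : Set ℕ) (d : ℕ → Fin 10) (n : ℕ) :
    M S d n = Pool.Agent.TH888.R.cS S (fun p => Pool.Agent.W66L.dsum 10 p d) n := by
  classical
  unfold M Pool.Agent.TH888.R.cS
  rfl

lemma pt (S : Set ℕ) : ∀ᵐ d ∂digits, Nat.Coprime (d 0) 10 →
      Pool.Agent.TH888.R.Pt (fun p => Pool.Agent.W66L.dsum 10 p d)
        (Real.exp Real.eulerMascheroniConstant / Real.log 10) S := by
  have h := Pool.Agent.Q160.TA.pt_full (b := 10) (by norm_num) (Pool.Agent.W66L.full_digits 10) S
  filter_upwards [h] with d hd hu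
  have hc : (Pool.Agent.W66L.dsum 10 1 d).Coprime 10 := by
    unfold Pool.Agent.W66L.dsum
    simpa using hu
  have h3 := hd hc
  simpa using h3

/-- The values at the constant sequence `1` are the repunits; for almost every sequence of digits with
last digit prime to ten the law holds with a square root error term; for every set of primes the number
of prime values is finite or infinite according to the weight of the set, and in the second case it
obeys the corresponding law. -/
theorem result :
    (∀ p : ℕ, p.Prime → p ≠ 3 → W (fun _ => 1) p = ∑ i ∈ Finset.range p, 10 ^ i) ∧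
    (∀ᵐ d ∂digits, Nat.Coprime (d 0) 10 →
      (fun n : ℕ => (M Set.univ d n : ℝ) -
        Real.exp Real.eulerMascheroniConstant / Real.log 10 * Real.log n) =O[atTop]
      (fun n : ℕ => Real.sqrt (Real.log n) * (Real.log (Real.log n)) ^ ((5 : ℝ) / 2))) ∧
    (∀ S : Set ℕ, Tendsto (V S) atTop atTop → ∀ᵐ d ∂digits, Nat.Coprime (d 0) 10 →
      (fun n : ℕ => (M S d n : ℝ) -
        Real.exp Real.eulerMascheroniConstant / Real.log 10 * V S n) =O[atTop]
      (fun n : ℕ => Real.sqrt (V S n * Real.log (Real.log n)) *
        (Real.log (V S n * Real.log (Real.log n))) ^ 2)) ∧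
    (∀ S : Set ℕ, ∀ᵐ d ∂digits, Nat.Coprime (d 0) 10 →
      ({p : ℕ | p.Prime ∧ p ∈ S ∧ (W d p).Prime}.Infinite ↔ Tendsto (V S) atTop atTop)) := by
  have hV : ∀ S, V S = Pool.Agent.TH888.R.VS S := fun S => funext fun n => V_eq S n
  refine ⟨fun p hp h3 => W_special hp h3, ?_, fun S hS => ?_, fun S => ?_⟩
  · filter_upwards [pt Set.univ] with d hd hu
    obtain ⟨B, hB, h⟩ := (hd hu).law Pool.Agent.TH888.R.VS_univ_tendsto
    simp only [M_eq]
    exact Pool.Agent.TH888.R.bigO_all hB h
  · rw [hV] at hS ⊢
    filter_upwards [pt S] with d hd hu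
    obtain ⟨B, hB, h⟩ := (hd hu).law hS
    simp only [M_eq]
    exact Pool.Agent.TH888.R.bigO_set hB hS h
  · rw [hV]
    filter_upwards [pt S] with d hd hu
    constructor
    · intro hi
      by_contra hn
      exact hi ((hd hu).fin hn)
    · exact (hd hu).inf

end Pool.Agent.Results.MP_adea1b_nt.LastDigits
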