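import Mathlib
import Pool.Agent.Q160.TB6
import Pool.Agent.W66.LU

set_option autoImplicit false

/-!
# Decimal repunits: a positive proportion of the digits prescribed

Let `0 < s < 1`.  For a sequence `w` of prescribed initial blocks (for instance `w p` the repunit with
`p - ⌊s p⌋` digits) and `0 < θ ≤ 1` let `N s w θ p` be the integer whose decimal digits are those of
`w p` followed by the first `⌊s p⌋` decimal digits of `θ` (non-terminating expansion), and let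
`M S s w θ n` be the number of primes `p ≤ n` in `S` for which the `p`-rough part of `N s w θ p` is
prime.  For `w = ones` and `θ = 1 / 9` the number `N s w θ p` is the repunit `R_p`, its own `p`-rough
part for every prime `p ≠ 3`.  We prove, with Hoheisel's theorem, that there are `δ, c, C > 0` such that
for every `s` in `[1 - δ, 1)`, for all prescribed initial blocks `w` and for almost every `θ` we have
`c log n ≤ M s w θ n ≤ C log n` for all large `n`, with the dichotomy and the same bounds for every set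
of primes.
-/

namespace Pool.Agent.Results.MP_adea1b_nt.LeadingDigits

open Filter Topology MeasureTheory

/-- The product, with multiplicity, of the prime factors of `m` that are larger than `p`. -/
def roughPart (p m : ℕ) : ℕ := (m.primeFactorsList.filter (fun r => p < r)).prod

/-- The integer formed by the first `n` decimal digits of `θ` (non-terminating expansion). -/
noncomputable def D (θ : ℝ) (n : ℕ) : ℕ := ⌈θ * 10 ^ n⌉₊ - 1

/-- The digits of `w p`, followed by the first `⌊s p⌋` decimal digits of `θ`. -/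
noncomputable def N (s : ℝ) (w : ℕ → ℕ) (θ : ℝ) (p : ℕ) : ℕ :=
  w p * 10 ^ ⌊s * p⌋₊ + D θ ⌊s * p⌋₊

/-- The integer with `p - ⌊s p⌋` decimal digits `1`. -/
noncomputable def ones (s : ℝ) (p : ℕ) : ℕ := ∑ i ∈ Finset.range (p - ⌊s * p⌋₊), 10 ^ i

open Classical in
/-- The number of primes `p ≤ n` in `S` for which the `p`-rough part of `N s w θ p` is prime. -/
noncomputable def M (S : Set ℕ) (s : ℝ) (w : ℕ → ℕ) (θ : ℝ) (n : ℕ) : ℕ :=
  ((Finset.range (n + 1)).filter (fun p => p.Prime ∧ p ∈ S ∧ (roughPart p (N s w θ p)).Prime)).card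

open Classical in
/-- The sum of `log p / p` over the primes `p ≤ n` in `S`. -/
noncomputable def V (S : Set ℕ) (n : ℕ) : ℝ :=
  ∑ p ∈ (Finset.range (n + 1)).filter (fun p => p.Prime ∧ p ∈ S), Real.log p / p

lemma V_eq (S : Set ℕ) (n : ℕ) : V S n = Pool.Agent.TH888.R.VS S n := by
  classical
  unfold V Pool.Agent.TH888.R.VS
  rw [Finset.sum_filter]
  refine Finset.sum_congr rfl fun p _ => ?_
  by_cases h : p.Prime ∧ p ∈ S
  · rw [if_pos h, if_pos ⟨h.2, h.1⟩]
    rfl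
  · rw [if_neg h, if_neg fun h1 => h ⟨h1.2, h1.1⟩]

lemma rep_real (n : ℕ) : ((∑ i ∈ Finset.range n, 10 ^ i : ℕ) : ℝ) * 9 = 10 ^ n - 1 := by
  have h := geom_sum_mul (10 : ℝ) n
  push_cast
  linarith

lemma N_repunit {s : ℝ} (hs0 : 0 ≤ s) (hs1 : s ≤ 1) (p : ℕ) :
    N s (ones s) (1 / 9) p = ∑ i ∈ Finset.range p, 10 ^ i := by
  have h1 : ⌊s * p⌋₊ ≤ p := by
    refine Nat.floor_le_of_le ?_
    have : (0 : ℝ) ≤ p := Nat.cast_nonneg p
    nlinarith
  obtain ⟨r, hr⟩ : ∃ r, r = ⌊s * p⌋₊ := ⟨_, rfl⟩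
  unfold N ones D
  rw [← hr] at h1 ⊢
  have h2 : ⌈(1 / 9 : ℝ) * 10 ^ r⌉₊ = (∑ i ∈ Finset.range r, 10 ^ i) + 1 := by
    have h3 := rep_real r
    rw [Nat.ceil_eq_iff (by omega)]
    constructor
    · rw [Nat.add_sub_cancel]
      linarith
    · rw [Nat.cast_add, Nat.cast_one]
      linarith
  rw [h2, Nat.add_sub_cancel]
  have h3 := rep_real r
  have h4 := rep_real (p - r)
  have h5 := rep_real p
  have h6 : (10 : ℝ) ^ (p - r) * 10 ^ r = 10 ^ p := by rw [← pow_add, Nat.sub_add_cancel h1]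
  have h7 : (((∑ i ∈ Finset.range (p - r), 10 ^ i) * 10 ^ r + ∑ i ∈ Finset.range r, 10 ^ i : ℕ) : ℝ) =
      ((∑ i ∈ Finset.range p, 10 ^ i : ℕ) : ℝ) := by
    rw [Nat.cast_add, Nat.cast_mul, Nat.cast_pow, Nat.cast_ofNat]
    nlinarith
  exact_mod_cast h7

lemma rough_rep {p : ℕ} (hp : p.Prime) (h3 : p ≠ 3) :
    roughPart p (∑ i ∈ Finset.range p, 10 ^ i) = ∑ i ∈ Finset.range p, 10 ^ i :=
  Pool.Agent.W66L.rough_repunit (b := 10) (by norm_num) hp (by
    intro h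
    have h2 : p ∣ 3 := by
      have : p ∣ 3 ^ 2 := by simpa using h
      exact hp.dvd_of_dvd_pow this
    exact h3 ((Nat.prime_dvd_prime_iff_eq hp Nat.prime_three).1 h2))

lemma M_eq (S : Set ℕ) (s : ℝ) (w : ℕ → ℕ) (θ : ℝ) (n : ℕ) :
    M S s w θ n = Pool.Agent.TH888.R.cS S (N s w θ) n := by
  classical
  unfold M Pool.Agent.TH888.R.cS
  rfl

/-- The numbers for `w = ones` and `θ = 1 / 9` are the repunits; with a positive proportion of the
first digits prescribed, the counting function has the order of magnitude `log n` for almost every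
choice of the other digits, and for sets of primes the order of magnitude of `V`. -/
theorem result :
    (∀ s : ℝ, 0 ≤ s → s < 1 → (∀ p : ℕ, 1 ≤ p → 0 < ones s p ∧ ones s p < 10 ^ (p - ⌊s * p⌋₊)) ∧
      (∀ p : ℕ, N s (ones s) (1 / 9) p = ∑ i ∈ Finset.range p, 10 ^ i) ∧
      ∀ p : ℕ, p.Prime → p ≠ 3 → roughPart p (∑ i ∈ Finset.range p, 10 ^ i) =
        ∑ i ∈ Finset.range p, 10 ^ i) ∧
    ∃ δ c C : ℝ, 0 < δ ∧ δ < 1 ∧ 0 < c ∧ 0 < C ∧ ∀ s : ℝ, 1 - δ ≤ s → s < 1 →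
      ∀ w : ℕ → ℕ, (∀ p : ℕ, 1 ≤ p → 0 < w p ∧ w p < 10 ^ (p - ⌊s * p⌋₊)) →
      (∀ᵐ θ : ℝ, θ ∈ Set.Ioc (0 : ℝ) 1 → ∀ᶠ n : ℕ in atTop,
        c * Real.log n ≤ M Set.univ s w θ n ∧ (M Set.univ s w θ n : ℝ) ≤ C * Real.log n) ∧
      (∀ S : Set ℕ, Tendsto (V S) atTop atTop → ∀ᵐ θ : ℝ, θ ∈ Set.Ioc (0 : ℝ) 1 →
        ∀ᶠ n : ℕ in atTop, c * V S n ≤ M S s w θ n ∧ (M S s w θ n : ℝ) ≤ C * V S n) ∧
      (∀ S : Set ℕ, ∀ᵐ θ : ℝ, θ ∈ Set.Ioc (0 : ℝ) 1 →
        ({p : ℕ | p.Prime ∧ p ∈ S ∧ (roughPart p (N s w θ p)).Prime}.Infinite ↔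
          Tendsto (V S) atTop atTop)) := by
  classical
  have hV : ∀ S, V S = Pool.Agent.TH888.R.VS S := fun S => funext fun n => V_eq S n
  refine ⟨fun s hs0 hs1 => ⟨fun p hp => ?_, fun p => N_repunit hs0 hs1.le p,
    fun p hp h3 => rough_rep hp h3⟩, ?_⟩
  · have hlt : ⌊s * p⌋₊ < p := by
      rw [Nat.floor_lt (by positivity)]
      have : (1 : ℝ) ≤ p := by exact_mod_cast hp
      nlinarith
    obtain ⟨k, hk⟩ : ∃ k, p - ⌊s * p⌋₊ = k + 1 := ⟨p - ⌊s * p⌋₊ - 1, by omega⟩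
    have h1 := rep_real (k + 1)
    have h2 : (1 : ℝ) ≤ 10 ^ k := one_le_pow₀ (by norm_num)
    unfold ones
    rw [hk]
    rw [pow_succ] at h1
    constructor
    · have : (0 : ℝ) < ((∑ i ∈ Finset.range (k + 1), 10 ^ i : ℕ) : ℝ) := by linarith
      exact_mod_cast this
    · have : ((∑ i ∈ Finset.range (k + 1), 10 ^ i : ℕ) : ℝ) < ((10 ^ (k + 1) : ℕ) : ℝ) := by
        rw [Nat.cast_pow, Nat.cast_ofNat, pow_succ]
        linarith
      exact_mod_cast this
  · obtain ⟨δ, hδ, hδ1, h⟩ := Pool.Agent.Q160.TB.prefix_law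
    obtain ⟨c1, c2, hc1, hc2, hpt⟩ := h 10 (by norm_num)
    refine ⟨δ, c1 / 2, 2 * c2, hδ, hδ1, by positivity, by positivity, fun s hs hs1 w hw => ?_⟩
    have hall : ∀ S : Set ℕ, ∀ᵐ θ : ℝ, θ ∈ Set.Ioc (0 : ℝ) 1 →
        Pool.Agent.Q160.TB.PtO (N s w θ) c1 c2 S := by
      intro S
      filter_upwards [hpt s hs hs1 w hw S] with θ hθ hm
      have h2 := hθ hm
      simp only [Nat.cast_ofNat] at h2
      exact h2
    obtain ⟨r1, r2, r3⟩ := Pool.Agent.Q160.TB.conc hc1 hc2 hall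
    refine ⟨?_, fun S hS => ?_, fun S => ?_⟩
    · simp only [M_eq]
      exact r1
    · rw [hV] at hS ⊢
      simp only [M_eq]
      exact r2 S hS
    · rw [hV]
      exact r3 S

end Pool.Agent.Results.MP_adea1b_nt.LeadingDigits
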