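import Pool.Agent.Q217.SG.Multiple

/-!
# Decimal repunits behave like primes for integers with few decimal digits

Let `R_n = (10 ^ n - 1) / 9`. We consider integers which are sums of few terms `c 10 ^ α`, that is
integers with few nonzero decimal digits of either sign, or with few windows of digits.

(1) Let `x_1 ⋯ x_r = q R_n`, `r ≥ 2`, where `x_1, …, x_r, q` are sums of `K` terms in total. If the
prime factors of `n` are larger than `(2 r) ^ (K / 2)` and `(K + 1) (2 r) ^ (K / 2) h < n`, where `h`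
is the integral part of the decimal logarithm of `9` times the product of the sums of the `|c|`
over the terms of the `x_t` plus twice the corresponding sum for `q`, then `10 ^ n - 1` (and so
`R_n`) divides one of the `x_t`.

(2) In particular this holds for `r = 2` if `x`, `y`, `q` have `k₁`, `k₂`, `l` nonzero signed digits,
`K = k₁ + k₂ + l`, `2 ^ K (K + 2) ^ 2 ≤ n` and the prime factors of `n` are larger than `2 ^ K` (for
instance if `n` is prime).

(3) If `10 ^ n - 1 = x y` where `x`, `y` have `k₁`, `k₂` nonzero signed digits, `K = k₁ + k₂ + 1` and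
`n` is as in (2), then `x = ±1` or `y = ±1`.
-/

set_option autoImplicit false

namespace Pool.Agent.Results.MP_adea1b_nt.SparseEuclid

open Finset Q217.SG

/-- The decimal repunit. -/
def R (n : ℕ) : ℤ := ∑ i ∈ range n, (10 : ℤ) ^ i

/-- `x` is a sum of `k` terms `c 10 ^ α` with `|c| ≤ 9`, that is `x` has at most `k` nonzero signed
decimal digits. -/
def HasDigits (k : ℕ) (x : ℤ) : Prop :=
  ∃ (c : Fin k → ℤ) (α : Fin k → ℕ), (∀ i, |c i| ≤ 9) ∧ x = ∑ i, c i * 10 ^ α i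

theorem R_mul (n : ℕ) : (10 - 1) * R n = (10 : ℤ) ^ n - 1 ^ n := by
  rw [R, one_pow, mul_comm, geom_sum_mul]

theorem good_ten : Good 10 1 := by
  refine ⟨by norm_num, isCoprime_one_right, by norm_num, ?_, ?_⟩
  · rintro p hp ⟨u, v, hu, -⟩
    have h5 : (5 : ℤ) ∣ u := by
      have h1 : (5 : ℤ) ∣ u ^ p := ⟨2, by rw [← hu]; norm_num⟩
      have h2 : Prime (5 : ℤ) := by norm_num
      exact h2.dvd_of_dvd_pow h1
    have h25 : (5 : ℤ) ^ 2 ∣ u ^ p := (pow_dvd_pow_of_dvd h5 2).trans (pow_dvd_pow u hp.two_le)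
    rw [← hu] at h25
    norm_num at h25
  · rintro ⟨f, hf⟩
    have : 0 ≤ f ^ 4 := by positivity
    rw [← hf] at this
    norm_num at this

theorem sum_zero {k : ℕ} (c : Fin k → ℤ) (α : Fin k → ℕ) (h : ∑ i, (c i).natAbs = 0) :
    ∑ i, c i * (10 : ℤ) ^ α i = 0 := by
  have h1 : ∀ i, c i = 0 := by
    intro i
    have := (Finset.sum_eq_zero_iff.1 h) i (Finset.mem_univ i)
    simpa using this
  simp [h1]

theorem upgrade {n k h : ℕ} (c : Fin k → ℤ) (α : Fin k → ℕ)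
    (hc : 9 * ∑ i, (c i).natAbs < 10 ^ (h + 1)) (hn : k * (h + 1) < n)
    (hd : R n ∣ ∑ i, c i * (10 : ℤ) ^ α i) : (10 : ℤ) ^ n - 1 ∣ ∑ i, c i * (10 : ℤ) ^ α i := by
  refine sparse_multiple (b := 10) (by norm_num) (h := h) c α ?_ hn ?_
  · have h1 : ((9 * ∑ i, (c i).natAbs : ℕ) : ℤ) < ((10 ^ (h + 1) : ℕ) : ℤ) := by exact_mod_cast hc
    push_cast at h1
    norm_num
    exact h1
  · have h2 := R_mul n
    rw [one_pow] at h2
    rw [← h2]
    exact mul_dvd_mul_left _ hd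

theorem part1 {n r l : ℕ} (hr : 2 ≤ r) (k : Fin r → ℕ) (c : ∀ t, Fin (k t) → ℤ)
    (α : ∀ t, Fin (k t) → ℕ) (d : Fin l → ℤ) (β : Fin l → ℕ)
    (hcop : ∀ p : ℕ, p.Prime → p ∣ n → Real.sqrt (2 * r) ^ (∑ t, k t + l) < p)
    (hprod : ∏ t, ∑ i, c t i * (10 : ℤ) ^ α t i = (∑ j, d j * (10 : ℤ) ^ β j) * R n)
    (hbig : ((∑ t, k t + l + 1 : ℕ) : ℝ) * Real.sqrt (2 * r) ^ (∑ t, k t + l) *
      Nat.log 10 (9 * ∏ t, ∑ i, (c t i).natAbs + 2 * ∑ j, (d j).natAbs) < n) :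
    ∃ t, (10 : ℤ) ^ n - 1 ∣ ∑ i, c t i * (10 : ℤ) ^ α t i := by
  by_cases h0 : ∃ t, ∑ i, (c t i).natAbs = 0
  · obtain ⟨t, ht⟩ := h0
    exact ⟨t, by rw [sum_zero _ _ ht]; exact dvd_zero _⟩
  push Not at h0
  by_cases hd : ∑ j, (d j).natAbs = 0
  · rw [sum_zero d β hd, zero_mul, Finset.prod_eq_zero_iff] at hprod
    obtain ⟨t, -, ht⟩ := hprod
    exact ⟨t, by rw [ht]; exact dvd_zero _⟩
  have hprod1 : 1 ≤ ∏ t, ∑ i, (c t i).natAbs :=
    Nat.one_le_iff_ne_zero.2 (Finset.prod_ne_zero_iff.2 (fun t _ => h0 t))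
  generalize hh : Nat.log 10 (9 * ∏ t, ∑ i, (c t i).natAbs + 2 * ∑ j, (d j).natAbs) = h at hbig
  have hlog : 1 ≤ h := by
    rw [← hh]
    apply Nat.log_pos (by norm_num)
    omega
  have hn1 : 1 ≤ n := by
    by_contra hcon
    have : n = 0 := by omega
    rw [this] at hbig
    have h1 : (0 : ℝ) ≤ ((∑ t, k t + l + 1 : ℕ) : ℝ) * Real.sqrt (2 * r) ^ (∑ t, k t + l) * h := by
      positivity
    simp only [Nat.cast_zero] at hbig
    linarith
  obtain ⟨t, ht⟩ := euclid_unit (b := 10) (ε := 1) (Or.inl rfl) good_ten (n := n) hn1 hr c α d β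
    hcop (R_mul n) hprod (by
      have e1 : ((10 : ℤ) - 1).natAbs = 9 := rfl
      have e2 : (10 : ℤ).natAbs = 10 := rfl
      rw [e1, e2, hh]
      exact hbig)
  refine ⟨t, upgrade (h := h) (c t) (α t) ?_ ?_ ht⟩
  · have h1 := Nat.lt_pow_succ_log_self (b := 10) (by norm_num)
      (9 * ∏ t, ∑ i, (c t i).natAbs + 2 * ∑ j, (d j).natAbs)
    rw [hh] at h1
    refine lt_of_le_of_lt ?_ h1
    have h2 : ∑ i, (c t i).natAbs ≤ ∏ t, ∑ i, (c t i).natAbs :=
      Nat.le_of_dvd hprod1 (Finset.dvd_prod_of_mem _ (Finset.mem_univ t))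
    omega
  · by_cases hk : k t = 0
    · rw [hk]; omega
    have hkK : k t ≤ ∑ t, k t + l := by
      have : k t ≤ ∑ t, k t :=
        Finset.single_le_sum (f := fun t => k t) (fun _ _ => Nat.zero_le _) (Finset.mem_univ t)
      omega
    generalize ∑ t, k t + l = K at *
    have h2 : (2 : ℝ) ≤ Real.sqrt (2 * r) := by
      apply Real.le_sqrt_of_sq_le
      have : (2 : ℝ) ≤ r := by exact_mod_cast hr
      linarith
    have h3 : (2 : ℝ) ≤ Real.sqrt (2 * r) ^ K := by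
      calc (2 : ℝ) ≤ Real.sqrt (2 * r) := h2
        _ = Real.sqrt (2 * r) ^ 1 := (pow_one _).symm
        _ ≤ Real.sqrt (2 * r) ^ K := pow_le_pow_right₀ (by linarith) (by omega)
    have h4 : ((k t * (h + 1) : ℕ) : ℝ) < n := by
      refine lt_of_le_of_lt ?_ hbig
      have h5 : (k t : ℝ) ≤ ((K + 1 : ℕ) : ℝ) := by exact_mod_cast (by omega : k t ≤ K + 1)
      have h6 : (1 : ℝ) ≤ h := by exact_mod_cast hlog
      have h7 : (0 : ℝ) ≤ k t := by positivity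
      push_cast at h5 ⊢
      calc (k t : ℝ) * (h + 1) ≤ k t * (2 * h) := by
            apply mul_le_mul_of_nonneg_left _ h7
            linarith
        _ = k t * 2 * h := by ring
        _ ≤ (K + 1) * Real.sqrt (2 * r) ^ K * h := by
            apply mul_le_mul_of_nonneg_right _ (by positivity)
            exact mul_le_mul h5 h3 (by norm_num) (by positivity)
    exact_mod_cast h4

theorem part2 {n k₁ k₂ l : ℕ} {x y q : ℤ} (hx : HasDigits k₁ x) (hy : HasDigits k₂ y)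
    (hq : HasDigits l q) (hcop : ∀ p : ℕ, p.Prime → p ∣ n → 2 ^ (k₁ + k₂ + l) < p)
    (hbig : 2 ^ (k₁ + k₂ + l) * (k₁ + k₂ + l + 2) ^ 2 ≤ n) (hxy : x * y = q * R n) :
    (10 : ℤ) ^ n - 1 ∣ x ∨ (10 : ℤ) ^ n - 1 ∣ y := by
  obtain ⟨c₁, α₁, hc₁, rfl⟩ := hx
  obtain ⟨c₂, α₂, hc₂, rfl⟩ := hy
  obtain ⟨d, β, hd, rfl⟩ := hq
  have hs : ∀ {k : ℕ} (c : Fin k → ℤ), (∀ i, |c i| ≤ 9) → ∑ i, (c i).natAbs ≤ k * (10 - 1) := by
    intro k c hc
    exact sum_digits_le (b := 10) c (fun i => by have := hc i; push_cast; omega)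
  have h1 := log_digits (b := 10) (by norm_num) (hs c₁ hc₁) (hs c₂ hc₂) (hs d hd)
  let k : Fin 2 → ℕ := fun t => match t with
    | 0 => k₁
    | 1 => k₂
  let c : ∀ t, Fin (k t) → ℤ := fun t => match t with
    | 0 => c₁
    | 1 => c₂
  let α : ∀ t, Fin (k t) → ℕ := fun t => match t with
    | 0 => α₁
    | 1 => α₂
  have hsum : ∑ t, k t = k₁ + k₂ := by rw [Fin.sum_univ_two]
  have hsqrt : Real.sqrt (2 * ((2 : ℕ) : ℝ)) = 2 := by
    rw [show (2 : ℝ) * ((2 : ℕ) : ℝ) = 2 ^ 2 by norm_num]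
    exact Real.sqrt_sq (by norm_num)
  obtain ⟨t, ht⟩ := part1 (n := n) (r := 2) le_rfl k c α d β
    (by
      intro p hp hpn
      rw [hsum, hsqrt]
      exact_mod_cast hcop p hp hpn)
    (by rw [Fin.prod_univ_two]; exact hxy)
    (by
      rw [hsum, hsqrt, Fin.prod_univ_two]
      have h2 : Nat.log 10 (9 * ((∑ i, (c₁ i).natAbs) * ∑ i, (c₂ i).natAbs) +
          2 * ∑ j, (d j).natAbs) ≤ k₁ + k₂ + l + 3 := by
        refine le_trans (Nat.log_mono_right ?_) h1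
        apply Nat.add_le_add_right
        exact Nat.mul_le_mul_right _ (by norm_num)
      have h3 : (k₁ + k₂ + l + 1) * 2 ^ (k₁ + k₂ + l) *
          Nat.log 10 (9 * ((∑ i, (c₁ i).natAbs) * ∑ i, (c₂ i).natAbs) +
          2 * ∑ j, (d j).natAbs) < n := by
        generalize k₁ + k₂ + l = K at *
        calc (K + 1) * 2 ^ K * Nat.log 10 (9 * ((∑ i, (c₁ i).natAbs) * ∑ i, (c₂ i).natAbs) +
              2 * ∑ j, (d j).natAbs) ≤ (K + 1) * 2 ^ K * (K + 3) := Nat.mul_le_mul_left _ h2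
          _ = 2 ^ K * ((K + 1) * (K + 3)) := by ring
          _ < 2 ^ K * (K + 2) ^ 2 := by
              apply Nat.mul_lt_mul_of_pos_left _ (by positivity)
              have : (K + 2) ^ 2 = (K + 1) * (K + 3) + 1 := by ring
              omega
          _ ≤ n := hbig
      exact_mod_cast h3)
  match t, ht with
  | 0, ht => exact Or.inl ht
  | 1, ht => exact Or.inr ht

theorem part3 {n k₁ k₂ : ℕ} {x y : ℤ} (hx : HasDigits k₁ x) (hy : HasDigits k₂ y)
    (hcop : ∀ p : ℕ, p.Prime → p ∣ n → 2 ^ (k₁ + k₂ + 1) < p)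
    (hbig : 2 ^ (k₁ + k₂ + 1) * (k₁ + k₂ + 3) ^ 2 ≤ n) (hxy : x * y = 10 ^ n - 1) :
    x = 1 ∨ x = -1 ∨ y = 1 ∨ y = -1 := by
  have hq : HasDigits 1 9 := ⟨fun _ => 9, fun _ => 0, fun _ => by norm_num, by simp⟩
  have hn0 : n ≠ 0 := by
    rintro rfl
    have : 0 < 2 ^ (k₁ + k₂ + 1) * (k₁ + k₂ + 3) ^ 2 := by positivity
    omega
  have hne : (10 : ℤ) ^ n - 1 ≠ 0 := by
    have : (10 : ℤ) ^ 1 ≤ 10 ^ n := pow_le_pow_right₀ (by norm_num) (by omega)
    rw [pow_one] at this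
    linarith
  have hR := R_mul n
  rw [one_pow] at hR
  have hcases : ∀ z w : ℤ, z * w = 10 ^ n - 1 → (10 : ℤ) ^ n - 1 ∣ z → w = 1 ∨ w = -1 := by
    rintro z w hzw ⟨v, hv⟩
    have h1 : ((10 : ℤ) ^ n - 1) * (v * w) = ((10 : ℤ) ^ n - 1) * 1 := by
      rw [mul_one, ← mul_assoc, ← hv, hzw]
    have h2 : v * w = 1 := mul_left_cancel₀ hne h1
    exact Int.isUnit_iff.1 (IsUnit.of_mul_eq_one v (by rw [mul_comm]; exact h2))
  rcases part2 hx hy hq hcop hbig (by rw [hxy, ← hR]; norm_num) with h | h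
  · rcases hcases x y hxy h with h1 | h1
    · exact Or.inr (Or.inr (Or.inl h1))
    · exact Or.inr (Or.inr (Or.inr h1))
  · rcases hcases y x (by rw [mul_comm]; exact hxy) h with h1 | h1
    · exact Or.inl h1
    · exact Or.inr (Or.inl h1)

/-- **Decimal repunits behave like primes for integers with few decimal digits.**
(1) Euclid's lemma for products `x_1 ⋯ x_r = q R_n` with windows of digits and an explicit bound; the
conclusion is that even `10 ^ n - 1` divides one of the factors.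
(2) The case of two factors with `k₁`, `k₂` digits and a quotient with `l` digits.
(3) `10 ^ n - 1` has only trivial factorizations into two integers with few digits. -/
theorem result :
    (∀ n r l : ℕ, 2 ≤ r → ∀ (k : Fin r → ℕ) (c : ∀ t, Fin (k t) → ℤ)
      (α : ∀ t, Fin (k t) → ℕ) (d : Fin l → ℤ) (β : Fin l → ℕ),
      (∀ p : ℕ, p.Prime → p ∣ n → Real.sqrt (2 * r) ^ (∑ t, k t + l) < p) →
      ∏ t, ∑ i, c t i * (10 : ℤ) ^ α t i = (∑ j, d j * (10 : ℤ) ^ β j) * R n →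
      ((∑ t, k t + l + 1 : ℕ) : ℝ) * Real.sqrt (2 * r) ^ (∑ t, k t + l) *
        Nat.log 10 (9 * ∏ t, ∑ i, (c t i).natAbs + 2 * ∑ j, (d j).natAbs) < n →
      ∃ t, (10 : ℤ) ^ n - 1 ∣ ∑ i, c t i * (10 : ℤ) ^ α t i) ∧
    (∀ (n k₁ k₂ l : ℕ) (x y q : ℤ), HasDigits k₁ x → HasDigits k₂ y → HasDigits l q →
      (∀ p : ℕ, p.Prime → p ∣ n → 2 ^ (k₁ + k₂ + l) < p) →
      2 ^ (k₁ + k₂ + l) * (k₁ + k₂ + l + 2) ^ 2 ≤ n → x * y = q * R n →
      (10 : ℤ) ^ n - 1 ∣ x ∨ (10 : ℤ) ^ n - 1 ∣ y) ∧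
    (∀ (n k₁ k₂ : ℕ) (x y : ℤ), HasDigits k₁ x → HasDigits k₂ y →
      (∀ p : ℕ, p.Prime → p ∣ n → 2 ^ (k₁ + k₂ + 1) < p) →
      2 ^ (k₁ + k₂ + 1) * (k₁ + k₂ + 3) ^ 2 ≤ n → x * y = 10 ^ n - 1 →
      x = 1 ∨ x = -1 ∨ y = 1 ∨ y = -1) :=
  ⟨fun _ _ _ hr k c α d β hcop hprod hbig => part1 hr k c α d β hcop hprod hbig,
    fun _ _ _ _ _ _ _ hx hy hq hcop hbig hxy => part2 hx hy hq hcop hbig hxy,
    fun _ _ _ _ _ hx hy hcop hbig hxy => part3 hx hy hcop hbig hxy⟩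

end Pool.Agent.Results.MP_adea1b_nt.SparseEuclid
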